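import Pool.Agent.H25.AmpCyc

set_option autoImplicit false

namespace Pool.Agent.Results.MP_229e70_co.Polygon

open Pool.Agent.H25.Amp

/-- A graph and an admissible configuration whose amplitude has modulus below one. -/
theorem result : ∃ (G : SimpleGraph (Fin 17)) (_ : DecidableRel G.Adj),
    ∃ (x : Fin 17 → EuclideanSpace ℝ (Fin 3)) (ψ : G.Dart → Fin 2 → ℂ) (Δ : Finset G.Dart),
      Spinors G x ψ ∧ Orientation G Δ ∧ ‖amp G ψ Δ‖ < 1 :=
  ⟨Cyc.G, inferInstance, _, _, _, Cyc.spinors, Cyc.orient, Cyc.value⟩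

end Pool.Agent.Results.MP_229e70_co.Polygon
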